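import Pool.Agent.H14.FRU.Stmts

set_option linter.unusedVariables false
set_option linter.unusedSectionVars false
set_option synthInstance.maxSize 100000

/-!
Closure properties of `H` in the extension.
-/

namespace SW.FU

section
variable {M : Type} [SetStr M] [ZF M]

theorem uc1_img {a Z : M} (hZ : Sub om Z) (h : Cb a) : Img Z a := by
  obtain ⟨f, h1, h2⟩ := h
  refine ⟨sep (prod om a) (fun z => ∃ n y, z = opair n y ∧ E (opair y n) f), fun y hy => ?_⟩
  obtain ⟨n, hn, hf⟩ := h1 y hy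
  refine ⟨n, hZ n hn, ?_⟩
  unfold app
  symm
  apply the_eq
  · rw [mem_sep' inferInstance]
    exact ⟨mem_prod.2 ⟨hn, hy⟩, n, y, rfl, hf⟩
  · intro z hz
    rw [mem_sep' inferInstance] at hz
    obtain ⟨h3, n', y', h4, h5⟩ := hz
    rw [mem_prod] at h3
    rw [opair_inj] at h4
    obtain ⟨rfl, rfl⟩ := h4
    exact h2 _ _ _ h3.2 hy hn h5 hf

end

theorem fru_uc1 (hfnx : FNXStmt) (hcba : CBAStmt) (hzfx : ZFXStmt) (hhfx : HFXStmt) :
    UC1Stmt := by
  intro M _ _ _ w Z H I G hX hG _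
  have ef := embF hG
  have tf := traF hG
  have zf := hzfx M w Z hX.bs
  have hf := hhfx M w Z H hX.bs hX.th hX.clo
  have hwH : Sub w H := fun x hx => hf.ZH x (zf.wZ x hx)
  have hww : E w H := by
    refine hX.clo w hwH ?_
    obtain ⟨f, hf⟩ : Img w w := by
      refine ⟨gr w (fun x => x), fun y hy => ⟨y, hy, ?_⟩⟩
      rw [app_gr inferInstance hy]
    exact ⟨f, fun y hy => by
      obtain ⟨x, hx, e⟩ := hf y hy
      exact ⟨x, zf.wZ x hx, e⟩⟩
  refine ⟨fun a ha hs => ?_, ?_, ?_⟩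
  · obtain ⟨b, hb, hbs, rfl⟩ := hfnx M (PG1 w I) G hG H a ha hs
    rw [ef.mem]
    exact hX.clo b hbs (uc1_img zf.omZ ((hcba M).fin hb))
  · rw [ef.mem]
    exact hww
  · rw [tf.sub]
    exact hwH

end SW.FU
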